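import Pool.Agent.Y554.DP.Fin
import Pool.Agent.Y232.DP.Loc
import Pool.Agent.Y197.DP.CoUp

/-!
Dynamical critical bond percolation on `ℤ²`: almost surely, in every time interval, the set of the
times at which there are both an infinite open (black) cluster and an infinite dual (white) cluster
has Hausdorff dimension `2/3`. In particular there are such times in every interval.

Files of the proof: `Y554/DP` (lower bound, assembly; with `Y232/DP`, `Y914/DP`, `Y220/DP`,
`Y681/DP`, `Y363/DP`) and `Y197/DP` (upper bound), which adapt and extend `H389R2/NS` of the starting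
library.
-/

set_option autoImplicit false

open MeasureTheory

namespace Pool.Agent.Results.MP_115c1a_pr.CoexistenceDimension

/-- Edges of `ℤ²`: `(x, y, true)` joins `(x, y)` and `(x + 1, y)`, and `(x, y, false)` joins
`(x, y)` and `(x, y + 1)`. -/
abbrev Edge := ℤ × ℤ × Bool

/-- Dynamical percolation at `p = 1/2`: started from fair coins; every edge is refreshed at rate
`1`, independently, by a fair coin. `ω t w e = true` means that `e` is open at time `t`. The
process is described by its finite-dimensional distributions (the state of an edge at the times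
`t₀ ≤ t₁ ≤ …` is a Markov chain which is uniform at time `t₀` and keeps its value between `s` and
`t` with probability `(1 + exp (-(t - s))) / 2`, different edges are independent) and by the
right continuity and the existence of left limits of the trajectories. -/
structure IsDynamicalPercolation {Ω : Type} [MeasurableSpace Ω] (μ : Measure Ω)
    (ω : ℝ → Ω → Edge → Bool) : Prop where
  meas : ∀ (t : ℝ) (e : Edge), Measurable (fun w => ω t w e)
  fdd : ∀ (F : Finset Edge) (n : ℕ) (t : Fin (n + 1) → ℝ) (a : Edge → Fin (n + 1) → Bool),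
      0 ≤ t 0 → Monotone t →
      μ {w | ∀ e ∈ F, ∀ i, ω (t i) w e = a e i} =
        ENNReal.ofReal (∏ e ∈ F, ((1 / 2 : ℝ) * ∏ i : Fin n,
          (if a e i.castSucc = a e i.succ
            then (1 + Real.exp (-(t i.succ - t i.castSucc))) / 2
            else (1 - Real.exp (-(t i.succ - t i.castSucc))) / 2)))
  cadlag : ∀ᵐ w ∂μ, ∀ e : Edge,
      (∀ t : ℝ, 0 ≤ t → ∃ ε > 0, ∀ s : ℝ, t ≤ s → s < t + ε → ω s w e = ω t w e) ∧
      (∀ t : ℝ, 0 < t → ∃ ε > 0, ε ≤ t ∧ ∀ s s' : ℝ,
        t - ε < s → s < t → t - ε < s' → s' < t → ω s w e = ω s' w e)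

/-- The graph of the open edges. -/
def blackGraph (η : Edge → Bool) : SimpleGraph (ℤ × ℤ) :=
  SimpleGraph.fromRel (fun u v =>
    (v = (u.1 + 1, u.2) ∧ η (u.1, u.2, true) = true) ∨
      (v = (u.1, u.2 + 1) ∧ η (u.1, u.2, false) = true))

/-- The graph of the open dual edges (a dual edge is open if and only if the edge which it crosses
is closed). The vertex `(x, y)` stands for the dual vertex `(x + 1/2, y + 1/2)`: the dual edge
between `(x - 1/2, y + 1/2)` and `(x + 1/2, y + 1/2)` crosses `(x, y, false)`, the dual edge between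
`(x + 1/2, y - 1/2)` and `(x + 1/2, y + 1/2)` crosses `(x, y, true)`. -/
def whiteGraph (η : Edge → Bool) : SimpleGraph (ℤ × ℤ) :=
  SimpleGraph.fromRel (fun f g =>
    (g = (f.1 + 1, f.2) ∧ η (g.1, g.2, false) = false) ∨
      (g = (f.1, f.2 + 1) ∧ η (g.1, g.2, true) = false))

/-- Almost surely, for all `0 ≤ s < t`, the set of the times in `[s, t]` at which there are both an
infinite black cluster and an infinite white cluster is not empty and has Hausdorff dimension
`2/3`. -/
theorem result (Ω : Type) [MeasurableSpace Ω] (μ : Measure Ω) [IsProbabilityMeasure μ]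
    (ω : ℝ → Ω → Edge → Bool) (h : IsDynamicalPercolation μ ω) :
    ∀ᵐ w ∂μ, ∀ s t : ℝ, 0 ≤ s → s < t →
      (∃ u : ℝ, s ≤ u ∧ u ≤ t ∧
        (∃ C : (blackGraph (ω u w)).ConnectedComponent, C.supp.Infinite) ∧
        (∃ C : (whiteGraph (ω u w)).ConnectedComponent, C.supp.Infinite)) ∧
      dimH {u : ℝ | s ≤ u ∧ u ≤ t ∧
        (∃ C : (blackGraph (ω u w)).ConnectedComponent, C.supp.Infinite) ∧
        (∃ C : (whiteGraph (ω u w)).ConnectedComponent, C.supp.Infinite)} =
          ENNReal.ofReal (2 / 3) := by
  have h' : H389NS.IsDP μ ω := ⟨h.meas, h.fdd, h.cadlag⟩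
  have h1 := Pool.Agent.Y554.DP.two_colours Pool.Agent.Y232.DP.dimLoc Pool.Agent.Y232.DP.shift
    (fun a => Pool.Agent.Y554.DP.UB_of_radius (by norm_num : (0:ℝ) < 1 / 4) a
      (Pool.Agent.Y197.DP.co_up_radius a)) h'
  filter_upwards [h1] with w hw
  intro s t hs hst
  have h2 := hw s t hs hst
  refine ⟨?_, h2⟩
  by_contra hcon
  have h3 : {u : ℝ | s ≤ u ∧ u ≤ t ∧
      (∃ C : (Pool.Agent.Y554.DP.bG (ω u w)).ConnectedComponent, C.supp.Infinite) ∧
      (∃ C : (Pool.Agent.Y554.DP.wG (ω u w)).ConnectedComponent, C.supp.Infinite)} = ∅ := by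
    ext u
    simp only [Set.mem_ofPred_eq, Set.mem_empty_iff_false, iff_false]
    intro hu
    exact hcon ⟨u, hu⟩
  rw [h3, dimH_empty] at h2
  have h4 : (0:ℝ) < 2 / 3 := by norm_num
  have h5 := ENNReal.ofReal_pos.2 h4
  rw [← h2] at h5
  exact lt_irrefl _ h5

end Pool.Agent.Results.MP_115c1a_pr.CoexistenceDimension
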